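import Mathlib

/-! Definitions for MP_1ad17e_al. -/

namespace E1ad

/-- The subgroup generated by the squares of elements of `Q`. -/
def Phi {G : Type*} [Group G] (Q : Subgroup G) : Subgroup G :=
  Subgroup.closure {z | ∃ q ∈ Q, z = q ^ 2}

/-- `E_M(T)`: the subgroup generated by the `2^M`-th powers of elements of `T`. -/
def powSub {G : Type*} [Group G] (T : Subgroup G) (M : ℕ) : Subgroup G :=
  Subgroup.closure {z | ∃ x ∈ T, z = x ^ (2 ^ M)}

end E1ad
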