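import Pool.Agent.Lib.MP_1ad17e_al_helper12.Outer

/-! Corollaries of control of fusion. -/

namespace E1ad

open Subgroup
open scoped commutatorElement

/-- `A` is a subgroup of `T` which is strongly closed in `T` with respect to `G`. -/
def StronglyClosed {G : Type*} [Group G] (T A : Subgroup G) : Prop :=
  A ≤ T ∧ ∀ a ∈ A, ∀ g : G, g * a * g⁻¹ ∈ T → g * a * g⁻¹ ∈ A

section

variable {G : Type*} [Group G]

theorem powSub_conj (T : Subgroup G) (M : ℕ) (h : G) (hh : h ∈ normalizer (T : Set G)) (z : G)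
    (hz : z ∈ powSub T M) : h * z * h⁻¹ ∈ powSub T M := by
  have h1 : powSub T M ≤ (powSub T M).comap (MulAut.conj h).toMonoidHom := by
    rw [powSub, Subgroup.closure_le]
    rintro _ ⟨x, hx, rfl⟩
    refine Subgroup.subset_closure ⟨h * x * h⁻¹, (mem_normalizer_iff.1 hh x).1 hx, ?_⟩
    exact (conj_pow).symm
  exact h1 hz

theorem powSub_le (T : Subgroup G) (M : ℕ) : powSub T M ≤ T := by
  rw [powSub, Subgroup.closure_le]
  rintro _ ⟨x, hx, rfl⟩
  exact pow_mem hx _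

theorem pow_mem_powSub (T : Subgroup G) (M : ℕ) {x : G} (hx : x ∈ T) : x ^ (2 ^ M) ∈ powSub T M :=
  Subgroup.subset_closure ⟨x, hx, rfl⟩

/-- If the fusion of `E` is controlled by `N(T)`, then `E` is strongly closed. -/
theorem stronglyClosed_of_good (T E A : Subgroup G) (hET : E ≤ T) (hAE : A ≤ E)
    (hA : ∀ h ∈ normalizer (T : Set G), ∀ z ∈ A, h * z * h⁻¹ ∈ A)
    (hgood : ∀ R : Subgroup G, R ≤ T → Good T E R) : StronglyClosed T A := by
  refine ⟨hAE.trans hET, fun a ha g hg => ?_⟩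
  obtain ⟨h, hh, e⟩ := hgood (Subgroup.zpowers a) (by
    rw [Subgroup.zpowers_le]; exact hET (hAE ha)) g (by
    rintro _ ⟨k, rfl⟩
    change g * a ^ k * g⁻¹ ∈ T
    rw [← conj_zpow]
    exact zpow_mem hg k)
  rw [e a (Subgroup.mem_zpowers a) (hAE ha)]
  exact hA h hh a ha

/-- The centre of `E` as a subgroup of `G`. -/
def cen (E : Subgroup G) : Subgroup G := E ⊓ centralizer (E : Set G)

theorem cen_conj (T E : Subgroup G)
    (hE : ∀ h ∈ normalizer (T : Set G), ∀ z ∈ E, h * z * h⁻¹ ∈ E) :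
    ∀ h ∈ normalizer (T : Set G), ∀ z ∈ cen E, h * z * h⁻¹ ∈ cen E := by
  intro h hh z hz0
  obtain ⟨hz, hz'⟩ := Subgroup.mem_inf.1 hz0
  refine Subgroup.mem_inf.2 ⟨hE h hh z hz, ?_⟩
  rw [mem_centralizer_iff] at hz' ⊢
  intro e he
  have h1 : h⁻¹ * e * h ∈ E := by
    have := hE h⁻¹ (inv_mem hh) e he
    rwa [inv_inv] at this
  have h2 := hz' _ h1
  calc e * (h * z * h⁻¹) = h * ((h⁻¹ * e * h) * z) * h⁻¹ := by group
    _ = h * (z * (h⁻¹ * e * h)) * h⁻¹ := by rw [h2]
    _ = h * z * h⁻¹ * e := by group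

theorem cen_comm (E : Subgroup G) : ∀ x ∈ cen E, ∀ y ∈ cen E, x * y = y * x := by
  rintro x ⟨hx, -⟩ y ⟨-, hy⟩
  exact mem_centralizer_iff.1 hy x hx

theorem eq_bot_of_cen [Finite G] (E : Subgroup G) (hE : IsPGroup 2 E) (h : cen E = ⊥) : E = ⊥ := by
  by_contra hne
  have h1 : Nontrivial E := (Subgroup.nontrivial_iff_ne_bot E).2 hne
  have h2 : Nontrivial (center E) := hE.center_nontrivial
  obtain ⟨⟨z, hz⟩, hz1⟩ := exists_ne (1 : center E)
  apply hz1
  have h3 : (z : G) ∈ cen E := by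
    refine Subgroup.mem_inf.2 ⟨z.2, ?_⟩
    rw [mem_centralizer_iff]
    intro e he
    have := mem_center_iff.1 hz ⟨e, he⟩
    exact congrArg Subtype.val this
  rw [h, Subgroup.mem_bot] at h3
  exact Subtype.ext (Subtype.ext h3)

/-- The final deduction. -/
theorem final [Finite G] (T : Sylow 2 G) (M : ℕ)
    (hgood : ∀ R : Subgroup G, R ≤ T → Good (T : Subgroup G) (powSub (T : Subgroup G) M) R) :
    StronglyClosed (T : Subgroup G) (powSub (T : Subgroup G) M) ∧
    ((∀ A : Subgroup G, StronglyClosed (T : Subgroup G) A → (∀ x ∈ A, ∀ y ∈ A, x * y = y * x) →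
      A = ⊥) → Monoid.exponent (T : Subgroup G) ∣ 2 ^ M) := by
  have hE := powSub_conj (T : Subgroup G) M
  refine ⟨stronglyClosed_of_good _ _ _ (powSub_le _ _) le_rfl hE hgood, fun hno => ?_⟩
  have h1 : cen (powSub (T : Subgroup G) M) = ⊥ := by
    refine hno _ ?_ (cen_comm _)
    exact stronglyClosed_of_good _ _ _ (powSub_le _ _) inf_le_left (cen_conj _ _ hE) hgood
  have h2 := eq_bot_of_cen _ (T.isPGroup'.to_le (powSub_le _ _)) h1
  refine Monoid.exponent_dvd_of_forall_pow_eq_one fun x => ?_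
  have h3 := pow_mem_powSub (T : Subgroup G) M x.2
  rw [h2, Subgroup.mem_bot] at h3
  exact Subtype.ext h3

end

end E1ad
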