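import Pool.Agent.Lib.MP_1ad17e_al_helper12.Defs
import Pool.Agent.Lib.MP_1ad17e_al_helper89.FP

/-! T7a1 of MP_1ad17e_al: (star). -/

namespace E1ad.helper49

open Subgroup
open scoped commutatorElement

/-- T7a1.  `Nst` is a proper subgroup of `N_G(Q)` which controls everything; then (star) holds. -/
theorem star {G : Type*} [Group G] [Finite G] (T : Subgroup G) (hT2 : IsPGroup 2 T)
    (Q : Subgroup G) (hQT : Q ≤ T)
    (hSyl : ∀ S : Subgroup G, IsPGroup 2 S → S ≤ normalizer (Q : Set G) →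
      ∃ x ∈ normalizer (Q : Set G), ∀ s ∈ S, x * s * x⁻¹ ∈ T)
    (Nst : Subgroup G) (hN1 : Nst ≤ normalizer (Q : Set G))
    (hC : ∀ m : G, (∀ z ∈ Q, m * z = z * m) → m ∈ Nst)
    (hP : normalizer (Q : Set G) ⊓ T ≤ Nst)
    (hF : ∀ m ∈ normalizer (Q : Set G), ∀ S : Subgroup G, Q < S → S ≤ normalizer (Q : Set G) ⊓ T →
      (∀ s ∈ S, m * s * m⁻¹ ∈ T) → m ∈ Nst)
    (hne : Nst ≠ normalizer (Q : Set G)) :
    ∀ y ∈ T, (∀ q ∈ Q, ⁅y, q⁆ ∈ Phi Q) → y ∈ Q := by
  classical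
  have : Fact (Nat.Prime 2) := ⟨Nat.prime_two⟩
  intro y hyT hy
  by_contra hyQ
  have hQ2 : IsPGroup 2 Q := hT2.to_le hQT
  have hNmem : ∀ {g : G}, (∀ q ∈ Q, g * q * g⁻¹ ∈ Q) → g ∈ normalizer (Q : Set G) := by
    intro g hg
    rw [Subgroup.mem_normalizer_iff]
    intro h
    refine ⟨fun hh => hg h hh, fun hh => ?_⟩
    have := E1ad.helper89.finite_conj_mem hg _ hh
    have h2 : g⁻¹ * (g * h * g⁻¹) * g = h := by group
    rwa [h2] at this
  have hNc : ∀ {g : G}, g ∈ normalizer (Q : Set G) → ∀ q ∈ Q, g * q * g⁻¹ ∈ Q := by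
    intro g hg q hq
    exact (Subgroup.mem_normalizer_iff.1 hg q).1 hq
  have hPhi : ∀ {g x : G}, g ∈ normalizer (Q : Set G) → x ∈ Phi Q → g * x * g⁻¹ ∈ Phi Q := by
    intro g x hg hx
    exact E1ad.helper89.Phi_conj Q (hNc hg) hx
  have hcomm : ∀ a ∈ Q, ∀ b ∈ Q, ⁅a, b⁆ ∈ Phi Q := by
    intro a ha b hb
    have h1 : ⁅a, b⁆ = a ^ 2 * (a⁻¹ * b) ^ 2 * (b⁻¹) ^ 2 := by
      rw [commutatorElement_def]; simp only [sq]; group
    rw [h1]
    refine mul_mem (mul_mem ?_ ?_) ?_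
    · exact subset_closure ⟨a, ha, rfl⟩
    · exact subset_closure ⟨_, mul_mem (inv_mem ha) hb, rfl⟩
    · exact subset_closure ⟨_, inv_mem hb, rfl⟩
  -- the subgroup K
  let K : Subgroup G :=
    { carrier := {k | k ∈ normalizer (Q : Set G) ∧ ∀ q ∈ Q, ⁅k, q⁆ ∈ Phi Q}
      mul_mem' := by
        rintro a b ⟨ha, ha'⟩ ⟨hb, hb'⟩
        refine ⟨mul_mem ha hb, fun q hq => ?_⟩
        have h1 : ⁅a * b, q⁆ = (a * ⁅b, q⁆ * a⁻¹) * ⁅a, q⁆ := by
          simp only [commutatorElement_def]; group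
        rw [h1]
        exact mul_mem (hPhi ha (hb' q hq)) (ha' q hq)
      one_mem' := by
        refine ⟨one_mem _, fun q _ => ?_⟩
        rw [commutatorElement_one_left]; exact one_mem _
      inv_mem' := by
        rintro a ⟨ha, ha'⟩
        refine ⟨inv_mem ha, fun q hq => ?_⟩
        have h1 : ⁅a⁻¹, q⁆ = a⁻¹ * (⁅a, q⁆)⁻¹ * a⁻¹⁻¹ := by
          simp only [commutatorElement_def]; group
        rw [h1]
        exact hPhi (inv_mem ha) (inv_mem (ha' q hq)) }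
  have hKmem : ∀ k, k ∈ K ↔ k ∈ normalizer (Q : Set G) ∧ ∀ q ∈ Q, ⁅k, q⁆ ∈ Phi Q :=
    fun k => Iff.rfl
  have hKN : K ≤ normalizer (Q : Set G) := fun k hk => ((hKmem k).1 hk).1
  have hQK : Q ≤ K := fun q hq =>
    (hKmem q).2 ⟨Subgroup.le_normalizer hq, fun q' hq' => hcomm q hq q' hq'⟩
  have hyK : y ∈ K := by
    refine (hKmem y).2 ⟨hNmem fun q hq => ?_, hy⟩
    have h1 : y * q * y⁻¹ = ⁅y, q⁆ * q := by rw [commutatorElement_def]; group
    rw [h1]
    exact mul_mem (E1ad.helper89.Phi_le Q (hy q hq)) hq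
  have hKconj : ∀ {m k : G}, m ∈ normalizer (Q : Set G) → k ∈ K → m * k * m⁻¹ ∈ K := by
    intro m k hm hk
    refine (hKmem _).2 ⟨mul_mem (mul_mem hm (hKN hk)) (inv_mem hm), fun q hq => ?_⟩
    have h1 : ⁅m * k * m⁻¹, q⁆ = m * ⁅k, m⁻¹ * q * m⁻¹⁻¹⁆ * m⁻¹ := by
      simp only [commutatorElement_def]; group
    rw [h1]
    exact hPhi hm (((hKmem k).1 hk).2 _ (hNc (inv_mem hm) q hq))
  -- a Sylow subgroup of K containing K ⊓ T; it is K ⊓ T
  have hKT2 : IsPGroup 2 ((K ⊓ T).subgroupOf K) := by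
    have h1 : IsPGroup 2 (K ⊓ T : Subgroup G) := hT2.to_le inf_le_right
    exact h1.comap_of_injective K.subtype K.subtype_injective
  obtain ⟨S, hS⟩ := hKT2.exists_le_sylow
  have hS'2 : IsPGroup 2 ((S : Subgroup K).map K.subtype) := S.2.map _
  have hS'K : (S : Subgroup K).map K.subtype ≤ K := by
    rintro _ ⟨s, _, rfl⟩; exact s.2
  obtain ⟨x, hxN, hx⟩ := hSyl _ hS'2 (hS'K.trans hKN)
  have hle : K ⊓ T ≤ (S : Subgroup K).map K.subtype := by
    intro s hs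
    exact ⟨⟨s, hs.1⟩, hS hs, rfl⟩
  have heq : K ⊓ T = (S : Subgroup K).map K.subtype := by
    apply Subgroup.eq_of_le_of_card_ge hle
    let f : ((S : Subgroup K).map K.subtype) → (K ⊓ T : Subgroup G) := fun s =>
      ⟨x * s * x⁻¹, hKconj hxN (hS'K s.2), hx s s.2⟩
    have hf : Function.Injective f := by
      intro a b hab
      have : x * (a : G) * x⁻¹ = x * b * x⁻¹ := congrArg Subtype.val hab
      apply Subtype.ext
      simpa using this
    exact Nat.card_le_card_of_injective f hf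
  -- the centraliser of Q in K
  let C : Subgroup K := (Subgroup.centralizer (Q : Set G)).subgroupOf K
  have hCn : C.Normal := by
    refine ⟨fun c hc k => ?_⟩
    rw [Subgroup.mem_subgroupOf, Subgroup.mem_centralizer_iff] at hc ⊢
    intro q hq
    have h1 := hc ((k : G)⁻¹ * q * (k : G)⁻¹⁻¹) (hNc (inv_mem (hKN k.2)) q hq)
    have h2 : ((k * c * k⁻¹ : K) : G) = k * c * (k : G)⁻¹ := by simp
    rw [h2]
    have h3 : (k : G)⁻¹ * q * k * c = c * ((k : G)⁻¹ * q * k) := by simpa using h1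
    calc q * ((k : G) * c * (k : G)⁻¹) = k * ((k : G)⁻¹ * q * k * c) * (k : G)⁻¹ := by group
      _ = k * (c * ((k : G)⁻¹ * q * k)) * (k : G)⁻¹ := by rw [h3]
      _ = (k : G) * c * (k : G)⁻¹ * q := by group
  have hquot : IsPGroup 2 (K ⧸ C) := by
    intro g
    obtain ⟨k, rfl⟩ := QuotientGroup.mk_surjective g
    obtain ⟨b, c, hc, hbc⟩ := Nat.exists_eq_two_pow_mul_odd (orderOf_pos k).ne'
    refine ⟨b, ?_⟩
    rw [← QuotientGroup.mk_pow, QuotientGroup.eq_one_iff, Subgroup.mem_subgroupOf,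
      Subgroup.mem_centralizer_iff]
    intro q hq
    have hk1 : ((k : G) ^ 2 ^ b) ^ c = 1 := by
      rw [← pow_mul, ← hbc, ← Subgroup.coe_pow, pow_orderOf_eq_one]; rfl
    have hkK : (k : G) ^ 2 ^ b ∈ K := K.pow_mem k.2 _
    have := E1ad.helper89.coprimeFrattini Q hQ2 ((k : G) ^ 2 ^ b) c hc hk1
      (hNc (hKN hkK)) ((hKmem _).1 hkK).2 q hq
    simpa using this.symm
  have htop : (S : Subgroup K) ⊔ C = ⊤ := by
    rw [← Subgroup.index_eq_one]
    have h1 : ((S : Subgroup K) ⊔ C).index ∣ (S : Subgroup K).index :=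
      Subgroup.index_dvd_of_le le_sup_left
    have h2 : ((S : Subgroup K) ⊔ C).index ∣ C.index :=
      Subgroup.index_dvd_of_le le_sup_right
    obtain ⟨r, hr⟩ := IsPGroup.iff_card.1 hquot
    rw [← Subgroup.index_eq_card] at hr
    rw [hr] at h2
    have h3 : ¬ 2 ∣ (S : Subgroup K).index := S.not_dvd_index
    obtain ⟨j, _, hj⟩ := (Nat.dvd_prime_pow Nat.prime_two).1 h2
    rcases Nat.eq_zero_or_pos j with rfl | hj0
    · simpa using hj
    · exfalso
      apply h3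
      refine dvd_trans ?_ h1
      rw [hj]
      exact dvd_pow_self 2 hj0.ne'
  have hKNst : K ≤ Nst := by
    intro k hk
    have h1 : (⟨k, hk⟩ : K) ∈ (S : Subgroup K) ⊔ C := by rw [htop]; exact mem_top _
    rw [Subgroup.mem_sup_of_normal_right] at h1
    obtain ⟨s, hs, u, hu, hsu⟩ := h1
    have h2 : k = (s : G) * u := by
      have := congrArg Subtype.val hsu
      simpa using this.symm
    rw [h2]
    refine mul_mem ?_ ?_
    · have h3 : (s : G) ∈ K ⊓ T := by rw [heq]; exact ⟨s, hs, rfl⟩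
      exact hP ⟨hKN h3.1, h3.2⟩
    · apply hC
      intro z hz
      rw [Subgroup.mem_subgroupOf, Subgroup.mem_centralizer_iff] at hu
      exact (hu z hz).symm
  -- N ≤ Nst
  apply hne
  apply le_antisymm hN1
  intro m hm
  let S2 : Subgroup G := (K ⊓ T).map (MulAut.conj m).toMonoidHom
  have hS22 : IsPGroup 2 (S2.subgroupOf K) := by
    have h1 : IsPGroup 2 (K ⊓ T : Subgroup G) := hT2.to_le inf_le_right
    exact (h1.map _).comap_of_injective K.subtype K.subtype_injective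
  obtain ⟨S3, hS3⟩ := hS22.exists_le_sylow
  obtain ⟨k, hk⟩ := MulAction.exists_smul_eq K S3 S
  have hkm : ∀ s ∈ K ⊓ T, ((k : G) * m) * s * ((k : G) * m)⁻¹ ∈ T := by
    intro s hs
    have h0 : m * s * m⁻¹ ∈ K := hKconj hm hs.1
    have h1 : (⟨m * s * m⁻¹, h0⟩ : K) ∈ (S3 : Subgroup K) := by
      apply hS3
      rw [Subgroup.mem_subgroupOf]
      exact ⟨s, hs, by simp⟩
    have h2 : k * (⟨m * s * m⁻¹, h0⟩ : K) * k⁻¹ ∈ (S : Subgroup K) := by
      rw [← hk]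
      have := Subgroup.smul_mem_pointwise_smul (⟨m * s * m⁻¹, h0⟩ : K) (MulAut.conj k)
        (S3 : Subgroup K) h1
      rw [Sylow.smul_def, Sylow.pointwise_smul_def] at *
      simpa using this
    have h3 : ((k * (⟨m * s * m⁻¹, h0⟩ : K) * k⁻¹ : K) : G) ∈ K ⊓ T := by
      rw [heq]; exact ⟨_, h2, rfl⟩
    have h4 : ((k * (⟨m * s * m⁻¹, h0⟩ : K) * k⁻¹ : K) : G)
        = ((k : G) * m) * s * ((k : G) * m)⁻¹ := by
      simp [mul_assoc]
    rw [← h4]; exact h3.2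
  have hkmN : (k : G) * m ∈ Nst := by
    refine hF _ (mul_mem (hKN k.2) hm) (K ⊓ T) ?_ ?_ hkm
    · refine lt_of_le_of_ne (le_inf hQK hQT) ?_
      intro h
      apply hyQ
      rw [h]
      exact ⟨hyK, hyT⟩
    · exact inf_le_inf_right T hKN
  have : m = (k : G)⁻¹ * ((k : G) * m) := by group
  rw [this]
  exact mul_mem (inv_mem (hKNst k.2)) hkmN

end E1ad.helper49
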