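import Pool.Agent.Lib.MP_1ad17e_al_helper12.Cor
import Pool.Agent.Lib.MP_1ad17e_al_helper89.Main
import Pool.Agent.Lib.MP_1ad17e_al_helper12.Star

/-! Assembly of MP_1ad17e_al. -/

namespace E1ad

open Subgroup
open scoped commutatorElement

theorem mainStep {G : Type*} [Group G] [Finite G] (T : Subgroup G) (hT2 : IsPGroup 2 T)
    (n L : ℕ) (hn : 1 ≤ n) (hL : n < 2 ^ L) (hT : Subgroup.upperCentralSeries T n = ⊤) :
    MainStep T (powSub T (n - 1 + (3 * L + 2 * (2 * n - 1)))) := by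
  intro Q hQT hSyl Nst hN1 hE hP hF
  exact E1ad.helper89.mainStep_aux T hT2 n L hn hL hT Q hQT hSyl Nst hN1 hE hP hF
    (fun hC hne => E1ad.helper49.star T hT2 Q hQT.le hSyl Nst hN1 hC hP hF hne)

theorem good {G : Type*} [Group G] [Finite G] (T : Sylow 2 G) (n L : ℕ) (hn : 1 ≤ n)
    (hL : n < 2 ^ L) (hT : Subgroup.upperCentralSeries (T : Subgroup G) n = ⊤) (R : Subgroup G)
    (hR : R ≤ T) :
    Good (T : Subgroup G) (powSub (T : Subgroup G) (n - 1 + (3 * L + 2 * (2 * n - 1)))) R :=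
  outer T _ (powSub_conj _ _) (mainStep (T : Subgroup G) T.isPGroup' n L hn hL hT) R hR

/-- The main theorem. -/
theorem main {G : Type*} [Group G] [Finite G] (T : Sylow 2 G) (n : ℕ) (hn : 1 ≤ n)
    (hT : Group.nilpotencyClass (T : Subgroup G) ≤ n) :
    (∀ R : Subgroup G, R ≤ T →
      Good (T : Subgroup G) (powSub (T : Subgroup G) (5 * n + 3 * Nat.log 2 n)) R) ∧
    StronglyClosed (T : Subgroup G) (powSub (T : Subgroup G) (5 * n + 3 * Nat.log 2 n)) ∧
    ((∀ A : Subgroup G, StronglyClosed (T : Subgroup G) A → (∀ x ∈ A, ∀ y ∈ A, x * y = y * x) →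
      A = ⊥) → Monoid.exponent (T : Subgroup G) ∣ 2 ^ (5 * n + 3 * Nat.log 2 n)) := by
  have hnil : Group.IsNilpotent (T : Subgroup G) := T.isPGroup'.isNilpotent
  have hT' : Subgroup.upperCentralSeries (T : Subgroup G) n = ⊤ :=
    Subgroup.upperCentralSeries_eq_top_iff_nilpotencyClass_le.2 hT
  have hL : n < 2 ^ (Nat.log 2 n + 1) := Nat.lt_pow_succ_log_self (by norm_num) n
  have hM : n - 1 + (3 * (Nat.log 2 n + 1) + 2 * (2 * n - 1)) = 5 * n + 3 * Nat.log 2 n := by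
    omega
  have hgood := good T n (Nat.log 2 n + 1) hn hL hT'
  rw [hM] at hgood
  exact ⟨hgood, final T _ hgood⟩

end E1ad
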