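import Pool.Agent.Lib.MP_1ad17e_al_helper12.Defs

/-! Outer induction of MP_1ad17e_al. -/

namespace E1ad

open Subgroup
open scoped commutatorElement

/-- The conclusion of the main step, for all subgroups. -/
def MainStep {G : Type*} [Group G] (T : Subgroup G) (E : Subgroup G) : Prop :=
  ∀ Q : Subgroup G, Q < T →
    (∀ S : Subgroup G, IsPGroup 2 S → S ≤ normalizer (Q : Set G) →
      ∃ x ∈ normalizer (Q : Set G), ∀ s ∈ S, x * s * x⁻¹ ∈ T) →
    ∀ Nst : Subgroup G, Nst ≤ normalizer (Q : Set G) →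
    (∀ m ∈ normalizer (Q : Set G), (∀ z ∈ Q, z ∈ E → m * z = z * m) → m ∈ Nst) →
    (normalizer (Q : Set G) ⊓ T ≤ Nst) →
    (∀ m ∈ normalizer (Q : Set G), ∀ S : Subgroup G, Q < S → S ≤ normalizer (Q : Set G) ⊓ T →
      (∀ s ∈ S, m * s * m⁻¹ ∈ T) → m ∈ Nst) →
    Nst = normalizer (Q : Set G)

section

variable {G : Type*} [Group G]

/-- Fusion from `R` into `T` is controlled on `R ⊓ E` by `N(T)`. -/
def Good (T E R : Subgroup G) : Prop :=
  ∀ g : G, (∀ r ∈ R, g * r * g⁻¹ ∈ T) → ∃ h ∈ normalizer (T : Set G), ∀ z ∈ R, z ∈ E →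
    g * z * g⁻¹ = h * z * h⁻¹

theorem mem_normalizer_iff_forall {Q : Subgroup G} [Finite Q] {g : G} :
    g ∈ normalizer (Q : Set G) ↔ ∀ q ∈ Q, g * q * g⁻¹ ∈ Q := by
  constructor
  · intro h q hq
    exact (mem_normalizer_iff.1 h q).1 hq
  · intro h
    rw [mem_normalizer_iff]
    intro q
    refine ⟨h q, fun hq => ?_⟩
    let f : Q → Q := fun x => ⟨g * x * g⁻¹, h x x.2⟩
    have hf : Function.Injective f := by
      intro x y hxy
      have h1 : g * (x : G) * g⁻¹ = g * y * g⁻¹ := congrArg Subtype.val hxy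
      exact Subtype.ext (mul_left_cancel (mul_right_cancel h1))
    obtain ⟨x, hx⟩ := (Finite.injective_iff_surjective.1 hf) ⟨_, hq⟩
    have h1 : g * (x : G) * g⁻¹ = g * q * g⁻¹ := congrArg Subtype.val hx
    have h2 : (x : G) = q := mul_left_cancel (mul_right_cancel h1)
    rw [← h2]
    exact x.2

/-- the conjugate subgroup -/
abbrev cj (x : G) (R : Subgroup G) : Subgroup G := R.map (MulAut.conj x).toMonoidHom

theorem mem_cj {x : G} {R : Subgroup G} {y : G} : y ∈ cj x R ↔ ∃ r ∈ R, x * r * x⁻¹ = y :=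
  Iff.rfl

theorem mem_cj' {x : G} {R : Subgroup G} {y : G} : y ∈ cj x R ↔ x⁻¹ * y * x ∈ R := by
  rw [mem_cj]
  constructor
  · rintro ⟨r, hr, rfl⟩
    have : x⁻¹ * (x * r * x⁻¹) * x = r := by group
    rwa [this]
  · intro h
    exact ⟨_, h, by group⟩

theorem cj_le {x : G} {R S : Subgroup G} : cj x R ≤ S ↔ ∀ r ∈ R, x * r * x⁻¹ ∈ S :=
  Subgroup.map_le_iff_le_comap

theorem cj_cj (x y : G) (R : Subgroup G) : cj x (cj y R) = cj (x * y) R := by
  ext z
  rw [mem_cj', mem_cj', mem_cj']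
  have : y⁻¹ * (x⁻¹ * z * x) * y = (x * y)⁻¹ * z * (x * y) := by group
  rw [this]

theorem cj_one (R : Subgroup G) : cj 1 R = R := by
  ext z
  rw [mem_cj']
  simp

theorem card_cj (x : G) (R : Subgroup G) : Nat.card (cj x R) = Nat.card R :=
  Nat.card_congr (R.equivMapOfInjective _ (MulAut.conj x).injective).symm.toEquiv

theorem mem_normalizer_cj {x m : G} {R : Subgroup G} :
    m ∈ normalizer (cj x R : Set G) ↔ x⁻¹ * m * x ∈ normalizer (R : Set G) := by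
  rw [mem_normalizer_iff, mem_normalizer_iff]
  constructor
  · intro h r
    have h1 := h (x * r * x⁻¹)
    rw [mem_cj', mem_cj'] at h1
    have e1 : x⁻¹ * (x * r * x⁻¹) * x = r := by group
    have e2 : x⁻¹ * (m * (x * r * x⁻¹) * m⁻¹) * x = x⁻¹ * m * x * r * (x⁻¹ * m * x)⁻¹ := by group
    rw [e1, e2] at h1
    exact h1
  · intro h r
    have h1 := h (x⁻¹ * r * x)
    rw [mem_cj', mem_cj']
    have e2 : x⁻¹ * m * x * (x⁻¹ * r * x) * (x⁻¹ * m * x)⁻¹ = x⁻¹ * (m * r * m⁻¹) * x := by group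
    rw [e2] at h1
    exact h1

theorem isPGroup_cj {x : G} {R : Subgroup G} (h : IsPGroup 2 R) : IsPGroup 2 (cj x R) :=
  h.map _

end

section

variable {G : Type*} [Group G] [Finite G]

/-- Every 2-subgroup is conjugate into `T`. -/
theorem exists_conj_le (T : Sylow 2 G) (S : Subgroup G) (hS : IsPGroup 2 S) :
    ∃ x : G, cj x S ≤ T := by
  obtain ⟨S', hS'⟩ := hS.exists_le_sylow
  obtain ⟨x, hx⟩ := MulAction.exists_smul_eq G S' T
  refine ⟨x, cj_le.2 fun s hs => ?_⟩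
  have h := Subgroup.smul_mem_pointwise_smul s (MulAut.conj x) (S' : Subgroup G) (hS' hs)
  rw [← Sylow.coe_subgroup_smul, hx] at h
  exact h

/-- A fully normalised subgroup: its normaliser in `T` is Sylow in its normaliser. -/
theorem exists_in_normalizer (T : Sylow 2 G) (R₀ : Subgroup G) (hR₀ : R₀ ≤ T)
    (hmax : ∀ x : G, cj x R₀ ≤ T → Nat.card (normalizer (cj x R₀ : Set G) ⊓ T : Subgroup G) ≤
      Nat.card (normalizer (R₀ : Set G) ⊓ T : Subgroup G))
    (S : Subgroup G) (hS : IsPGroup 2 S) (hSN : S ≤ normalizer (R₀ : Set G)) :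
    ∃ x ∈ normalizer (R₀ : Set G), ∀ s ∈ S, x * s * x⁻¹ ∈ T := by
  set N := normalizer (R₀ : Set G) with hN
  let P₀ : Subgroup N := (T : Subgroup G).subgroupOf N
  have hP₀ : IsPGroup 2 P₀ := T.isPGroup'.comap_of_injective N.subtype N.subtype_injective
  obtain ⟨P, hP⟩ := hP₀.exists_le_sylow
  -- `P = P₀`
  have hcard : Nat.card P ≤ Nat.card P₀ := by
    have hP' : IsPGroup 2 ((P : Subgroup N).map N.subtype) := P.isPGroup'.map _
    obtain ⟨x, hx⟩ := exists_conj_le T _ hP'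
    have hR₀P : R₀ ≤ (P : Subgroup N).map N.subtype := by
      intro r hr
      have h1 : (⟨r, le_normalizer hr⟩ : N) ∈ P₀ := hR₀ hr
      exact ⟨⟨r, le_normalizer hr⟩, hP h1, rfl⟩
    have hx₀ : cj x R₀ ≤ T := (Subgroup.map_mono hR₀P).trans hx
    have h1 : cj x ((P : Subgroup N).map N.subtype) ≤
        (normalizer (cj x R₀ : Set G) ⊓ T : Subgroup G) := by
      refine le_inf ?_ hx
      intro y hy
      rw [mem_normalizer_cj]
      rw [mem_cj'] at hy
      obtain ⟨z, -, hz⟩ := hy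
      rw [← hz]
      exact z.2
    calc Nat.card P = Nat.card ((P : Subgroup N).map N.subtype) :=
          Nat.card_congr ((P : Subgroup N).equivMapOfInjective _ N.subtype_injective).toEquiv
      _ = Nat.card (cj x ((P : Subgroup N).map N.subtype)) := (card_cj _ _).symm
      _ ≤ Nat.card (normalizer (cj x R₀ : Set G) ⊓ T : Subgroup G) :=
          Subgroup.card_le_of_le h1
      _ ≤ Nat.card (N ⊓ T : Subgroup G) := hmax x hx₀
      _ = Nat.card (P₀.map N.subtype) := by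
          rw [Subgroup.subgroupOf_map_subtype, inf_comm]
      _ = Nat.card P₀ :=
          (Nat.card_congr (P₀.equivMapOfInjective _ N.subtype_injective).toEquiv).symm
  have hPP : P₀ = P := Subgroup.eq_of_le_of_card_ge hP hcard
  have hS' : IsPGroup 2 (S.subgroupOf N) := hS.comap_of_injective N.subtype N.subtype_injective
  obtain ⟨Q', hQ'⟩ := hS'.exists_le_sylow
  obtain ⟨z, hz⟩ := MulAction.exists_smul_eq N Q' P
  refine ⟨z, z.2, fun s hs => ?_⟩
  have h1 : (⟨s, hSN hs⟩ : N) ∈ (Q' : Subgroup N) := hQ' hs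
  have h2 := Subgroup.smul_mem_pointwise_smul _ (MulAut.conj z) (Q' : Subgroup N) h1
  rw [← Sylow.coe_subgroup_smul, hz, ← hPP] at h2
  exact h2

/-- The subgroup `N*`. -/
def Nst (T E R₀ : Subgroup G) (hE : ∀ h ∈ normalizer (T : Set G), ∀ z ∈ E, h * z * h⁻¹ ∈ E) :
    Subgroup G where
  carrier := {m | m ∈ normalizer (R₀ : Set G) ∧ ∃ h ∈ normalizer (T : Set G), ∀ z ∈ R₀, z ∈ E →
    m * z * m⁻¹ = h * z * h⁻¹}
  one_mem' := ⟨one_mem _, 1, one_mem _, fun z _ _ => rfl⟩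
  mul_mem' := by
    rintro a b ⟨ha, h₁, hh₁, ea⟩ ⟨hb, h₂, hh₂, eb⟩
    refine ⟨mul_mem ha hb, h₁ * h₂, mul_mem hh₁ hh₂, fun z hz hzE => ?_⟩
    have h3 : b * z * b⁻¹ ∈ R₀ := (mem_normalizer_iff.1 hb z).1 hz
    have h4 : b * z * b⁻¹ ∈ E := by rw [eb z hz hzE]; exact hE _ hh₂ _ hzE
    have h5 := ea _ h3 h4
    calc a * b * z * (a * b)⁻¹ = a * (b * z * b⁻¹) * a⁻¹ := by group
      _ = h₁ * (b * z * b⁻¹) * h₁⁻¹ := h5
      _ = h₁ * (h₂ * z * h₂⁻¹) * h₁⁻¹ := by rw [eb z hz hzE]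
      _ = h₁ * h₂ * z * (h₁ * h₂)⁻¹ := by group
  inv_mem' := by
    rintro m ⟨hm, h, hh, em⟩
    refine ⟨inv_mem hm, h⁻¹, inv_mem hh, fun w hw hwE => ?_⟩
    let X := {z : G // z ∈ R₀ ∧ z ∈ E}
    let φ : X → X := fun z => ⟨m * z * m⁻¹, (mem_normalizer_iff.1 hm _).1 z.2.1, by
      rw [em _ z.2.1 z.2.2]; exact hE _ hh _ z.2.2⟩
    have hφ : Function.Injective φ := by
      intro x y hxy
      have h1 : m * (x : G) * m⁻¹ = m * y * m⁻¹ := congrArg Subtype.val hxy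
      exact Subtype.ext (mul_left_cancel (mul_right_cancel h1))
    obtain ⟨⟨z, hz, hzE⟩, hzw⟩ := (Finite.injective_iff_surjective.1 hφ) ⟨w, hw, hwE⟩
    have h1 : m * z * m⁻¹ = w := congrArg Subtype.val hzw
    have h2 : h * z * h⁻¹ = w := by rw [← em z hz hzE, h1]
    have e1 : m⁻¹ * w * m⁻¹⁻¹ = z := by rw [← h1]; group
    have e2 : h⁻¹ * w * h⁻¹⁻¹ = z := by rw [← h2]; group
    rw [e1, e2]

/-- The outer induction. -/
theorem outer (T : Sylow 2 G) (E : Subgroup G)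
    (hE : ∀ h ∈ normalizer ((T : Subgroup G) : Set G), ∀ z ∈ E, h * z * h⁻¹ ∈ E)
    (hmain : MainStep (T : Subgroup G) E) (R : Subgroup G) (hR : R ≤ T) : Good (T : Subgroup G) E R := by
  obtain ⟨k, hk⟩ : ∃ k, k = Nat.card (T : Subgroup G) - Nat.card R := ⟨_, rfl⟩
  induction k using Nat.strong_induction_on generalizing R with
  | _ k ih =>
  rcases hR.eq_or_lt with hRT | hRT
  · -- `R = T`
    intro g hg
    refine ⟨g, ?_, fun z _ _ => rfl⟩
    rw [hRT] at hg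
    exact mem_normalizer_iff_forall.2 hg
  have hRcard : ∀ S : Subgroup G, S ≤ T → Nat.card R < Nat.card S → Good (T : Subgroup G) E S := by
    intro S hS hlt
    have h1 : Nat.card S ≤ Nat.card (T : Subgroup G) := Subgroup.card_le_of_le hS
    exact ih (Nat.card (T : Subgroup G) - Nat.card S) (by omega) S hS rfl
  have hRTcard : Nat.card R < Nat.card (T : Subgroup G) := by
    by_contra hcon
    exact hRT.ne (Subgroup.eq_of_le_of_card_ge hRT.le (not_lt.1 hcon))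
  -- choose the fully normalised conjugate
  obtain ⟨x₀, hx₀, hmax⟩ : ∃ x₀ : G, cj x₀ R ≤ T ∧ ∀ x : G, cj x R ≤ T →
      Nat.card (normalizer (cj x R : Set G) ⊓ T : Subgroup G) ≤
      Nat.card (normalizer (cj x₀ R : Set G) ⊓ T : Subgroup G) := by
    have hfin : ({x : G | cj x R ≤ T}).Finite := Set.toFinite _
    have hne : ({x : G | cj x R ≤ T}).Nonempty := ⟨1, by
      change cj 1 R ≤ T
      rw [cj_one]; exact hR⟩
    obtain ⟨x₀, hx₀, h⟩ := Set.exists_max_image _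
      (fun x => Nat.card (normalizer (cj x R : Set G) ⊓ T : Subgroup G)) hfin hne
    exact ⟨x₀, hx₀, h⟩
  set R₀ := cj x₀ R with hR₀def
  have hSyl : ∀ S : Subgroup G, IsPGroup 2 S → S ≤ normalizer (R₀ : Set G) →
      ∃ x ∈ normalizer (R₀ : Set G), ∀ s ∈ S, x * s * x⁻¹ ∈ T := by
    refine exists_in_normalizer T R₀ hx₀ fun x hx => ?_
    have h1 := hmax (x * x₀) (by rw [← cj_cj]; exact hx)
    rw [← cj_cj] at h1
    exact h1
  have hR₀card : Nat.card R₀ = Nat.card R := card_cj _ _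
  -- normalisers in `T` are larger
  have hnorm : ∀ R₁ : Subgroup G, R₁ ≤ T → Nat.card R₁ = Nat.card R →
      Nat.card R < Nat.card (normalizer (R₁ : Set G) ⊓ T : Subgroup G) := by
    intro R₁ h₁ hc
    have hnil : Group.IsNilpotent (T : Subgroup G) := T.isPGroup'.isNilpotent
    have hnc : NormalizerCondition (T : Subgroup G) := Group.normalizerCondition_of_isNilpotent
    have hlt : R₁.subgroupOf T < ⊤ := by
      refine lt_top_iff_ne_top.2 fun htop => ?_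
      have h2 : (T : Subgroup G) ≤ R₁ := Subgroup.subgroupOf_eq_top.1 htop
      have h3 := Subgroup.card_le_of_le h2
      omega
    have h4 := hnc _ hlt
    have h5 : R₁ < (normalizer (R₁ : Set G) ⊓ T : Subgroup G) := by
      refine lt_of_le_of_ne (le_inf le_normalizer h₁) fun heq => ?_
      obtain ⟨-, y, hy, hyR⟩ := SetLike.lt_iff_le_and_exists.1 h4
      apply hyR
      have h6 : (y : G) ∈ (normalizer (R₁ : Set G) ⊓ T : Subgroup G) := by
        refine ⟨mem_normalizer_iff_forall.2 fun q hq => ?_, y.2⟩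
        have h7 := (mem_normalizer_iff.1 hy ⟨q, h₁ hq⟩).1 hq
        exact h7
      rw [← heq] at h6
      exact h6
    rw [← hc]
    by_contra hcon
    exact h5.ne (Subgroup.eq_of_le_of_card_ge h5.le (not_lt.1 hcon))
  -- extension maps
  have hext : ∀ x : G, cj x R ≤ T → ∃ g₁ : G, cj g₁ (cj x R) = R₀ ∧
      ∀ y ∈ (normalizer (cj x R : Set G) ⊓ T : Subgroup G), g₁ * y * g₁⁻¹ ∈ T := by
    intro x hx
    let y := x₀ * x⁻¹
    have hy : cj y (cj x R) = R₀ := by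
      rw [cj_cj, hR₀def]
      congr 3
      simp [y]
    obtain ⟨z, hz, hzS⟩ := hSyl (cj y (normalizer (cj x R : Set G) ⊓ T))
      (isPGroup_cj (T.isPGroup'.to_le inf_le_right)) (by
        rw [cj_le]
        intro r hr
        rw [← hy, mem_normalizer_cj]
        have : y⁻¹ * (y * r * y⁻¹) * y = r := by group
        rw [this]
        exact hr.1)
    refine ⟨z * y, ?_, fun r hr => ?_⟩
    · rw [← cj_cj, hy]
      ext w
      rw [mem_cj']
      have h1 := mem_normalizer_iff.1 (inv_mem hz) w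
      rw [inv_inv] at h1
      exact h1.symm
    · have h1 := hzS (y * r * y⁻¹) ⟨r, hr, rfl⟩
      have h2 : z * y * r * (z * y)⁻¹ = z * (y * r * y⁻¹) * z⁻¹ := by group
      rw [h2]
      exact h1
  -- the main step
  have hNst : Nst (T : Subgroup G) E R₀ hE = normalizer (R₀ : Set G) := by
    refine hmain R₀ ?_ hSyl _ (fun m hm => hm.1) ?_ ?_ ?_
    · refine lt_of_le_of_ne hx₀ fun h => ?_
      rw [h] at hR₀card
      omega
    · intro m hm h
      refine ⟨hm, 1, one_mem _, fun z hz hzE => ?_⟩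
      rw [h z hz hzE]
      group
    · intro m hm
      exact ⟨hm.1, m, le_normalizer hm.2, fun z _ _ => rfl⟩
    · intro m hm S hS₁ hS₂ hS₃
      have hlt : Nat.card R < Nat.card S := by
        rw [← hR₀card]
        by_contra hcon
        exact hS₁.ne (Subgroup.eq_of_le_of_card_ge hS₁.le (not_lt.1 hcon))
      obtain ⟨h, hh, e⟩ := hRcard S (hS₂.trans inf_le_right) hlt m hS₃
      exact ⟨hm, h, hh, fun z hz hzE => e z (hS₁.le hz) hzE⟩
  intro g hg
  have hgR : cj g R ≤ T := cj_le.2 hg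
  obtain ⟨g₁, hg₁, hg₁'⟩ := hext 1 (by rw [cj_one]; exact hR)
  obtain ⟨g₂, hg₂, hg₂'⟩ := hext g hgR
  rw [cj_one] at hg₁ hg₁'
  -- the element of the normaliser
  have hm : g₂ * g * g₁⁻¹ ∈ Nst (T : Subgroup G) E R₀ hE := by
    rw [hNst]
    refine mem_normalizer_iff_forall.2 fun q hq => ?_
    rw [← hg₁, mem_cj] at hq
    obtain ⟨r, hr, rfl⟩ := hq
    rw [← hg₂, mem_cj]
    refine ⟨g * r * g⁻¹, ⟨r, hr, rfl⟩, by group⟩
  obtain ⟨-, h, hh, em⟩ := hm
  -- the two extensions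
  have hR₁ : Nat.card R < Nat.card (normalizer (R : Set G) ⊓ T : Subgroup G) := hnorm R hR rfl
  obtain ⟨h₁, hh₁, e₁⟩ := hRcard _ inf_le_right hR₁ g₁ hg₁'
  let S₂ : Subgroup G := cj g₂ (normalizer (cj g R : Set G) ⊓ T)
  have hS₂ : S₂ ≤ T := cj_le.2 hg₂'
  have hS₂card : Nat.card R < Nat.card S₂ := by
    have h1 := hnorm (cj g R) hgR (card_cj _ _)
    have h2 : Nat.card S₂ = Nat.card (normalizer (cj g R : Set G) ⊓ T : Subgroup G) := card_cj _ _
    rw [h2]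
    exact h1
  obtain ⟨h₂, hh₂, e₂⟩ := hRcard S₂ hS₂ hS₂card g₂⁻¹ (by
    rintro _ ⟨r, hr, rfl⟩
    have h1 : g₂⁻¹ * (g₂ * r * g₂⁻¹) * g₂⁻¹⁻¹ = r := by group
    change g₂⁻¹ * (g₂ * r * g₂⁻¹) * g₂⁻¹⁻¹ ∈ T
    rw [h1]
    exact hr.2)
  have hR₀S₂ : R₀ ≤ S₂ := by
    rw [← hg₂]
    exact Subgroup.map_mono (le_inf le_normalizer hgR)
  refine ⟨h₂ * h * h₁, mul_mem (mul_mem hh₂ hh) hh₁, fun z hz hzE => ?_⟩
  have a1 : g₁ * z * g₁⁻¹ = h₁ * z * h₁⁻¹ := e₁ z ⟨le_normalizer hz, hR hz⟩ hzE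
  have a2 : g₁ * z * g₁⁻¹ ∈ R₀ := by rw [← hg₁]; exact ⟨z, hz, rfl⟩
  have a3 : g₁ * z * g₁⁻¹ ∈ E := by rw [a1]; exact hE _ hh₁ _ hzE
  have b1 := em _ a2 a3
  have b2 : (g₂ * g * g₁⁻¹) * (g₁ * z * g₁⁻¹) * (g₂ * g * g₁⁻¹)⁻¹ ∈ R₀ := by
    rw [← hg₂]
    exact ⟨g * z * g⁻¹, ⟨z, hz, rfl⟩, by
      change g₂ * (g * z * g⁻¹) * g₂⁻¹ = _
      group⟩
  have b3 : (g₂ * g * g₁⁻¹) * (g₁ * z * g₁⁻¹) * (g₂ * g * g₁⁻¹)⁻¹ ∈ E := by
    rw [b1]; exact hE _ hh _ a3
  have c1 := e₂ _ (hR₀S₂ b2) b3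
  have c2 : g * z * g⁻¹ = g₂⁻¹ * ((g₂ * g * g₁⁻¹) * (g₁ * z * g₁⁻¹) * (g₂ * g * g₁⁻¹)⁻¹) *
      g₂⁻¹⁻¹ := by group
  rw [c2, c1, b1, a1]
  group

end

end E1ad
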